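import Pool.Agent.Helper46.LI.La4
import Pool.Agent.Helper19.S12.Win
import Pool.Agent.Helper40.NSK.Top4

/-! The thickness of the planks of a coordinate projection is the larger of the window functions of the sheets over
the other coordinates. -/

set_option autoImplicit false

namespace Pool.Agent.Helper46.LI

open Finset Filter Topology Matrix Pool.Agent.Helper69.RK Pool.Agent.Helper31.EC Pool.Agent.Helper31.EC.Sp
open Pool.Agent.Helper40.EL Pool.Agent.Helper42.NS Pool.Agent.Helper52.KP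
open Pool.Agent.Helper3.SG Pool.Agent.Helper91.GR Pool.Agent.Helper19.S12 Pool.Agent.Helper40.NSK

noncomputable section

variable {S : Sp} {q : ℕ} {s : Sys S (q + 1)} {z : Fin (q + 1)}

/-- the easy inequality -/
theorem la_le_lamP (s : Sys S (q + 1)) (z : Fin (q + 1)) (j : Fin q) (c : ℝ) :
    la s (z.succAbove j) (Jz z j) c ≤ lamP s (prZ s z) 1 c := le_lamP (HfP_of_SJ (la_le_one c) (HH_la c))

/-- **THICKNESS OF THE PROJECTION**: for robust systems a sheet over the other coordinates of the projection is at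
least as deep -/
theorem exists_lamP_le (hq : 0 < q) (hrob : ∀ (j : Fin q) (T : Sp) (p : Pj T S) (E : ∀ k, (T.F k).Ω → Prop)
    (hE : 0 < ul (T.pr E)) (c σ : ℝ), psi (SJ (z.succAbove j) (Jz z j)) (s.im p E hE) c σ =
      psi (SJ (z.succAbove j) (Jz z j)) s c σ) {c : ℝ} (h0 : 0 ≤ c) (h1 : c ≤ 1) :
    ∃ j : Fin q, lamP s (prZ s z) 1 c ≤ la s (z.succAbove j) (Jz z j) c := by
  have : Nonempty (Fin q) := ⟨⟨0, hq⟩⟩
  obtain ⟨j0, hj0⟩ := Finite.exists_max fun j : Fin q => la s (z.succAbove j) (Jz z j) c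
  refine ⟨j0, ?_⟩
  rcases h1.eq_or_lt with rfl | h1
  · exact (lamP_le_one le_rfl 1).trans (la_ge_self zero_le_one le_rfl)
  by_contra hc
  push Not at hc
  obtain ⟨e, he⟩ : ∃ e : ℝ, e = (lamP s (prZ s z) 1 c - la s (z.succAbove j0) (Jz z j0) c) / 5 := ⟨_, rfl⟩
  have he0 : 0 < e := by rw [he]; linarith
  have h2 := la_ge_self (s := s) (i := z.succAbove j0) (J := Jz z j0) h0 h1.le
  obtain ⟨j, l, E, hE, h3⟩ := sheet_im hq h0 h1 (HfP_lamP le_rfl c) (lamP_le_one (s := s) (s' := prZ s z) le_rfl c)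
    he0 (by linarith)
  rw [HH_iff, hrob j, ← HH_iff] at h3
  have h4 := le_la h3
  have h5 := hj0 j
  beta_reduce at h5
  linarith

/-! ### three space dimensions -/

theorem Jz_two : ∀ (z : Fin 3) (j : Fin 2), Jz z j = {0, (z.succAbove (1 - j)).succ} := by decide

theorem lamI_def {s : Sys S 3} (z : Fin 3) (c : ℝ) : lamI s z c = lamP s (prZ s z) 1 c := rfl

theorem la_le_lamI (s : Sys S 3) (z : Fin 3) (j : Fin 2) (c : ℝ) :
    la s (z.succAbove j) {0, (z.succAbove (1 - j)).succ} c ≤ lamI s z c := by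
  rw [← Jz_two, lamI_def]
  exact la_le_lamP s z j c

/-- **lamI_eq** -/
theorem lamI_eq {s : Sys S 3} (z : Fin 3) (hrob : ∀ (j : Fin 2) (T : Sp) (p : Pj T S) (E : ∀ k, (T.F k).Ω → Prop)
    (hE : 0 < ul (T.pr E)) (c σ : ℝ), psi (SJ (z.succAbove j) {0, (z.succAbove (1 - j)).succ}) (s.im p E hE) c σ =
      psi (SJ (z.succAbove j) {0, (z.succAbove (1 - j)).succ}) s c σ) {c : ℝ} (h0 : 0 ≤ c) (h1 : c ≤ 1) :
    lamI s z c = max (la s (z.succAbove 0) {0, (z.succAbove 1).succ} c)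
      (la s (z.succAbove 1) {0, (z.succAbove 0).succ} c) := by
  apply le_antisymm
  · obtain ⟨j, hj⟩ := exists_lamP_le (s := s) (z := z) (by norm_num) (fun j T p E hE c σ => by
      rw [Jz_two]; exact hrob j T p E hE c σ) h0 h1
    rw [lamI_def]
    refine hj.trans ?_
    rw [Jz_two]
    fin_cases j
    · exact le_max_left _ _
    · exact le_max_right _ _
  · apply max_le
    · exact la_le_lamI s z 0 c
    · exact la_le_lamI s z 1 c

/-- the same, for `HfP` -/
theorem HfP_iff_or {s : Sys S 3} (z : Fin 3) (hrob : ∀ (j : Fin 2) (T : Sp) (p : Pj T S)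
    (E : ∀ k, (T.F k).Ω → Prop) (hE : 0 < ul (T.pr E)) (c σ : ℝ),
    psi (SJ (z.succAbove j) {0, (z.succAbove (1 - j)).succ}) (s.im p E hE) c σ =
      psi (SJ (z.succAbove j) {0, (z.succAbove (1 - j)).succ}) s c σ) {c σ : ℝ} (h0 : 0 ≤ c) (h1 : c ≤ 1) :
    HfP s (prI s z) 1 c σ ↔ HH (SJ (z.succAbove 0) {0, (z.succAbove 1).succ}) s c σ ∨
      HH (SJ (z.succAbove 1) {0, (z.succAbove 0).succ}) s c σ := by
  have h2 : HfP s (prI s z) 1 c σ ↔ σ ≤ lamI s z c := HfP_iff_lamP le_rfl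
  rw [h2, lamI_eq z hrob h0 h1, HH_iff_la, HH_iff_la, le_max_iff]

end

end Pool.Agent.Helper46.LI
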