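import Pool.Agent.Helper93.LIP.Line
import Pool.Agent.Helper84.MT.Fis
import Pool.Agent.Helper91.GR.Def

/-! Affine forms: the sheet given by the row of the largest horizontal diagonal entry. -/

set_option autoImplicit false

namespace Pool.Agent.Helper46.LI

open Finset Matrix Pool.Agent.Helper95.LF Pool.Agent.Helper89.LX Pool.Agent.Helper3.LF
open Pool.Agent.Helper39.LIP Pool.Agent.Helper91.GR

noncomputable section

variable {N q : ℕ}

theorem gv_single (i : Fin N) (p : Fin N → ℝ) : (gv (Pi.single i 1) : Mon N 1 → ℝ) = dd i p := by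
  rw [dd_one i p 0]
  funext a
  unfold gv
  rw [Finset.sum_eq_single i]
  · rw [Pi.single_eq_same, one_mul]
  · intro b _ hb
    rw [Pi.single_eq_of_ne hb, zero_mul]
  · intro h
    exact absurd (Finset.mem_univ i) h

theorem gam_one (r : ℝ) (A : Matrix (Mon N 1) (Mon N 1) ℝ) (p : Fin N → ℝ) :
    gam r A p = nn N 1 * ∑ i, qf A (gv (Pi.single i 1)) := by
  unfold gam
  rw [Finset.mul_sum]
  refine Finset.sum_congr rfl fun i _ => ?_
  have h1 : ∀ j : Fin N → Fin (1 + 1), dd i (nodp 1 p r j) ⬝ᵥ (A *ᵥ dd i (nodp 1 p r j)) =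
      qf A (gv (Pi.single i 1)) := fun j => by
    rw [gv_single i (nodp 1 p r j)]
    rfl
  rw [Finset.sum_congr rfl fun j _ => h1 j, Finset.sum_const, nsmul_eq_mul, card_nodes]

theorem gv_sum (u : Fin N → ℝ) : (gv u : Mon N 1 → ℝ) = ∑ i, u i • gv (Pi.single i 1) := by
  funext a
  rw [Finset.sum_apply]
  unfold gv
  refine Finset.sum_congr rfl fun i _ => ?_
  have := congrFun (gv_single i (0 : Fin N → ℝ)) a
  unfold gv at this
  rw [Pi.smul_apply, smul_eq_mul, this]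

theorem gM_single (j : Fin q) : (gM (Pi.single j 1) : Mon (q + 1) 1 → ℝ) = gv (Pi.single j.succ 1) := by
  unfold gM
  congr 1
  funext i
  refine Fin.cases ?_ (fun l => ?_) i
  · rw [Fin.cons_zero, Pi.single_eq_of_ne (Fin.succ_ne_zero j).symm]
  · rw [Fin.cons_succ]
    by_cases h : l = j
    · rw [h, Pi.single_eq_same, Pi.single_eq_same]
    · rw [Pi.single_eq_of_ne h, Pi.single_eq_of_ne fun e => h (Fin.succ_injective _ e)]

theorem gM_sum (x : Fin q → ℝ) : (gM x : Mon (q + 1) 1 → ℝ) = ∑ j, x j • gM (Pi.single j 1) := by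
  unfold gM
  rw [gv_sum, Fin.sum_univ_succ, Fin.cons_zero, zero_smul, zero_add]
  refine Finset.sum_congr rfl fun j _ => ?_
  rw [Fin.cons_succ, ← gM_single]
  rfl

theorem gv_cons (x : Fin q → ℝ) : (gv (Fin.cons 1 x : Fin (q + 1) → ℝ) : Mon (q + 1) 1 → ℝ) =
    gv (Pi.single 0 1) + gM x := by
  unfold gM
  rw [← gv_add]
  congr 1
  funext i
  refine Fin.cases ?_ (fun l => ?_) i
  · rw [Fin.cons_zero, Pi.add_apply, Pi.single_eq_same, Fin.cons_zero, add_zero]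
  · rw [Fin.cons_succ, Pi.add_apply, Pi.single_eq_of_ne (Fin.succ_ne_zero l), Fin.cons_succ, zero_add]

/-- the time entry is controlled by the velocity of the line and the horizontal entries -/
theorem time_le {A : Matrix (Mon (q + 1) 1) (Mon (q + 1) 1) ℝ} (hA : PdM A) (x : Fin q → ℝ) {K : ℝ}
    (hx : ∀ j, |x j| ≤ K) : qf A (gv (Pi.single 0 1)) ≤ 2 * (qf A (gv (Fin.cons 1 x : Fin (q + 1) → ℝ)) +
      q * (K ^ 2 * ∑ j, qf A (gM (Pi.single j 1)))) := by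
  have h1 : (gv (Pi.single 0 1) : Mon (q + 1) 1 → ℝ) = gv (Fin.cons 1 x : Fin (q + 1) → ℝ) - gM x := by
    rw [gv_cons, add_sub_cancel_right]
  have h2 := Pool.Agent.Helper93.LIP.qf_sub_le (fun v => hA.nonneg v) (gv (Fin.cons 1 x : Fin (q + 1) → ℝ)) (gM x)
  rw [← h1] at h2
  refine h2.trans ?_
  have h3 : qf A (gM x) ≤ q * (K ^ 2 * ∑ j, qf A (gM (Pi.single j 1))) := by
    have h4 := Pool.Agent.Helper84.MT.qf_sum_le A hA (fun j : Fin q => x j • (gM (Pi.single j 1) : Mon (q + 1) 1 → ℝ))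
    rw [← gM_sum, Fintype.card_fin] at h4
    refine h4.trans ?_
    apply mul_le_mul_of_nonneg_left _ (Nat.cast_nonneg q)
    rw [Finset.mul_sum]
    refine Finset.sum_le_sum fun j _ => ?_
    have h5 : (x j • (gM (Pi.single j 1) : Mon (q + 1) 1 → ℝ)) ⬝ᵥ (A *ᵥ (x j • gM (Pi.single j 1))) =
        x j ^ 2 * qf A (gM (Pi.single j 1)) := qf_smul_vec A (x j) _
    rw [h5]
    apply mul_le_mul_of_nonneg_right _ (hA.nonneg _)
    rw [← sq_abs]
    exact pow_le_pow_left₀ (abs_nonneg _) (hx j) 2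
  linarith

/-- the row of the entry `j`, normalised -/
def rw1 (A : Matrix (Mon (q + 1) 1) (Mon (q + 1) 1) ℝ) (j : Fin q) : Mon (q + 1) 1 → ℝ :=
  (qf A (gM (Pi.single j 1)))⁻¹ • (A *ᵥ gM (Pi.single j 1))

theorem rw1_self {A : Matrix (Mon (q + 1) 1) (Mon (q + 1) 1) ℝ} {j : Fin q} (h : 0 < qf A (gM (Pi.single j 1))) :
    rw1 A j ⬝ᵥ gM (Pi.single j 1) = 1 := by
  unfold rw1
  rw [smul_dotProduct, smul_eq_mul, dotProduct_comm]
  exact inv_mul_cancel₀ h.ne'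

theorem rw1_sq {A : Matrix (Mon (q + 1) 1) (Mon (q + 1) 1) ℝ} (hA : PdM A) {j : Fin q}
    (h : 0 < qf A (gM (Pi.single j 1))) (v : Mon (q + 1) 1 → ℝ) :
    qf A (gM (Pi.single j 1)) * (rw1 A j ⬝ᵥ v) ^ 2 ≤ qf A v := by
  have h2 := qf_cs hA.1 (fun v => hA.nonneg v) v (gM (Pi.single j 1))
  unfold rw1
  rw [smul_dotProduct, smul_eq_mul, dotProduct_comm, mul_pow]
  have h3 : qf A (gM (Pi.single j 1)) * ((qf A (gM (Pi.single j 1)))⁻¹ ^ 2 * (v ⬝ᵥ (A *ᵥ gM (Pi.single j 1))) ^ 2) =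
      (qf A (gM (Pi.single j 1)))⁻¹ * (v ⬝ᵥ (A *ᵥ gM (Pi.single j 1))) ^ 2 := by
    field_simp
  rw [h3, inv_mul_le_iff₀ h, mul_comm (qf A (gM (Pi.single j 1)))]
  exact h2

theorem rw1_le {A : Matrix (Mon (q + 1) 1) (Mon (q + 1) 1) ℝ} (hA : PdM A) {j : Fin q}
    (h : 0 < qf A (gM (Pi.single j 1))) {v : Mon (q + 1) 1 → ℝ} {B : ℝ} (hB : 0 ≤ B)
    (hv : qf A v ≤ B ^ 2 * qf A (gM (Pi.single j 1))) : |rw1 A j ⬝ᵥ v| ≤ B := by
  apply abs_le_of_sq_le_sq _ hB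
  have h1 := rw1_sq hA h v
  have h2 : qf A (gM (Pi.single j 1)) * (rw1 A j ⬝ᵥ v) ^ 2 ≤ qf A (gM (Pi.single j 1)) * B ^ 2 := by linarith
  exact le_of_mul_le_mul_left h2 h

/-- values of affine functions -/
theorem dot_vv (w : Mon (q + 1) 1 → ℝ) (p : Fin (q + 1) → ℝ) : w ⬝ᵥ vv p = w ⬝ᵥ vv (0 : Fin (q + 1) → ℝ) +
    (p 0 * (w ⬝ᵥ gv (Pi.single 0 1)) + ∑ l : Fin q, p l.succ * (w ⬝ᵥ gM (Pi.single l 1))) := by
  have h1 := vv_gv (0 : Fin (q + 1) → ℝ) p
  rw [zero_add] at h1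
  rw [h1, dotProduct_add, gv_sum, dotProduct_sum, Fin.sum_univ_succ]
  congr 1
  congr 1
  · rw [dotProduct_smul, smul_eq_mul]
  · refine Finset.sum_congr rfl fun l _ => ?_
    rw [dotProduct_smul, smul_eq_mul, gM_single]

/-! ### sheets over the other coordinates of the projection -/

/-- the indices of `(t, P_l)`, `l` a coordinate of the projection different from `j` -/
def Jz (z : Fin (q + 1)) (j : Fin q) : Finset (Fin (q + 2)) :=
  insert 0 ((Finset.univ.erase j).image fun l => (z.succAbove l).succ)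

theorem sum_Jz (z : Fin (q + 1)) (j : Fin q) (f : Fin (q + 2) → ℝ) :
    ∑ i ∈ Jz z j, f i = f 0 + ∑ l ∈ Finset.univ.erase j, f (z.succAbove l).succ := by
  unfold Jz
  rw [Finset.sum_insert, Finset.sum_image]
  · intro a _ b _ h
    exact Fin.succAbove_right_injective (Fin.succ_injective _ h)
  · intro h
    obtain ⟨l, -, hl⟩ := Finset.mem_image.mp h
    exact Fin.succ_ne_zero _ hl

/-- the sheet `w(p) = 0` solved for the coordinate `j` -/
def shw (z : Fin (q + 1)) (w : Mon (q + 1) 1 → ℝ) : Cf (q + 2) :=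
  (-(w ⬝ᵥ vv (0 : Fin (q + 1) → ℝ)), Fin.cons (-(w ⬝ᵥ gv (Pi.single 0 1)))
    (fun i => -∑ l : Fin q, if z.succAbove l = i then w ⬝ᵥ gM (Pi.single l 1) else 0))

theorem shw_one (z : Fin (q + 1)) (w : Mon (q + 1) 1 → ℝ) : (shw z w).1 = -(w ⬝ᵥ vv (0 : Fin (q + 1) → ℝ)) := rfl

theorem shw_zero (z : Fin (q + 1)) (w : Mon (q + 1) 1 → ℝ) : (shw z w).2 0 = -(w ⬝ᵥ gv (Pi.single 0 1)) := rfl

theorem shw_succ (z : Fin (q + 1)) (w : Mon (q + 1) 1 → ℝ) (l : Fin q) :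
    (shw z w).2 (z.succAbove l).succ = -(w ⬝ᵥ gM (Pi.single l 1)) := by
  have h1 : (shw z w).2 (z.succAbove l).succ = -∑ l' : Fin q, if z.succAbove l' = z.succAbove l then
      w ⬝ᵥ gM (Pi.single l' 1) else 0 := rfl
  rw [h1, Finset.sum_eq_single l]
  · rw [if_pos rfl]
  · intro b _ hb
    rw [if_neg fun e => hb (Fin.succAbove_right_injective e)]
  · intro h
    exact absurd (Finset.mem_univ l) h

theorem shw_z (z : Fin (q + 1)) (w : Mon (q + 1) 1 → ℝ) : (shw z w).2 z.succ = 0 := by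
  have h1 : (shw z w).2 z.succ = -∑ l' : Fin q, if z.succAbove l' = z then w ⬝ᵥ gM (Pi.single l' 1) else 0 := rfl
  rw [h1, Finset.sum_eq_zero, neg_zero]
  intro l _
  rw [if_neg (Fin.succAbove_ne z l)]

theorem shw_le {z : Fin (q + 1)} {w : Mon (q + 1) 1 → ℝ} {K : ℝ} (hK : 0 ≤ K)
    (h0 : |w ⬝ᵥ gv (Pi.single 0 1)| ≤ K) (hl : ∀ l : Fin q, |w ⬝ᵥ gM (Pi.single l 1)| ≤ K) (i : Fin (q + 2)) :
    |(shw z w).2 i| ≤ K := by
  refine Fin.cases ?_ (fun i => ?_) i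
  · rw [shw_zero, abs_neg]
    exact h0
  · rcases Fin.eq_self_or_eq_succAbove z i with h | ⟨l, h⟩
    · rw [h, shw_z, abs_zero]
      exact hK
    · rw [h, shw_succ, abs_neg]
      exact hl l

/-- the distance from the sheet -/
theorem df_shw (z : Fin (q + 1)) (w : Mon (q + 1) 1 → ℝ) (j : Fin q) (hj : w ⬝ᵥ gM (Pi.single j 1) = 1)
    (a x : Fin (q + 1) → ℝ) (t : ℝ) : df (z.succAbove j) (Jz z j) (shw z w) a x t =
      w ⬝ᵥ vv (pl (fun l => a (z.succAbove l)) (fun l => x (z.succAbove l)) t) := by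
  rw [dot_vv]
  unfold df aff
  rw [sum_Jz, shw_one, shw_zero]
  have h1 : ∑ l ∈ Finset.univ.erase j, (shw z w).2 (z.succAbove l).succ * pl a x t (z.succAbove l).succ =
      -∑ l ∈ Finset.univ.erase j, pl (fun l => a (z.succAbove l)) (fun l => x (z.succAbove l)) t l.succ *
        (w ⬝ᵥ gM (Pi.single l 1)) := by
    rw [← Finset.sum_neg_distrib]
    refine Finset.sum_congr rfl fun l _ => ?_
    rw [shw_succ, pl_succ, pl_succ]
    ring
  have h2 := Finset.add_sum_erase (Finset.univ : Finset (Fin q)) (fun l => pl (fun l => a (z.succAbove l))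
    (fun l => x (z.succAbove l)) t l.succ * (w ⬝ᵥ gM (Pi.single l 1))) (Finset.mem_univ j)
  beta_reduce at h2
  rw [h1, ← h2, hj, pl_zero, pl_zero, pl_succ]
  ring

end

end Pool.Agent.Helper46.LI
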