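import Pool.Agent.Helper46.LI.La1
import Pool.Agent.Helper40.NSK.Gdi
import Pool.Agent.Helper42.NS.Obp

/-! Affine forms on the projection which forgets one coordinate give sheets over the other coordinates of the
projection. -/

set_option autoImplicit false

namespace Pool.Agent.Helper46.LI

open Finset Filter Topology Matrix Pool.Agent.Helper69.RK Pool.Agent.Helper31.EC Pool.Agent.Helper31.EC.Sp
open Pool.Agent.Helper40.EL Pool.Agent.Helper42.NS Pool.Agent.Helper52.KP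
open Pool.Agent.Helper95.LF Pool.Agent.Helper89.LX Pool.Agent.Helper3.LF Pool.Agent.Helper3.SG
open Pool.Agent.Helper39.LIP Pool.Agent.Helper91.GR

noncomputable section

theorem typ_exists_fin {S : Sp} {ι : Type} [Fintype ι] (E : ι → ∀ k, (S.F k).Ω → Prop)
    (h : Typ (fun k ω => ∃ i, E i k ω)) : ∃ i, 0 < ul (S.pr (E i)) := by
  by_contra hc
  push Not at hc
  have h0 : ∀ i, Tendsto (S.pr (E i)) UF (𝓝 0) := by
    intro i
    have h1 := ul_tendsto (UB_pr (E i))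
    have h2 : 0 ≤ ul (S.pr (E i)) := const_le_ul (UB_pr (E i)) (Eventually.of_forall fun k => pr_nonneg (E i) k)
    rwa [le_antisymm (hc i) h2] at h1
  have h1 : Tendsto (fun k => ∑ i, S.pr (E i) k) UF (𝓝 0) := by
    have := tendsto_finsetSum (Finset.univ : Finset ι) fun i _ => h0 i
    rwa [Finset.sum_const_zero] at this
  have h2 := (Typ_iff _).mp h
  have h3 : (1 : ℝ) ≤ 0 := by
    refine le_of_tendsto_of_tendsto h2 h1 (Eventually.of_forall fun k => ?_)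
    refine le_trans ?_ (Pool.Agent.Helper40.NSK.pb_exists (S.F k) Finset.univ (fun i => E i k))
    exact FSp.pb_mono _ fun ω _ ⟨i, hi⟩ => ⟨i, Finset.mem_univ i, hi⟩
  linarith

variable {S : Sp} {q : ℕ}

/-- the matrix which forgets the coordinate `z` -/
def sel (z : Fin (q + 1)) : Matrix (Fin q) (Fin (q + 1)) ℝ := Matrix.of fun j l => if z.succAbove j = l then 1 else 0

theorem sel_sum (z : Fin (q + 1)) (f : Fin (q + 1) → ℝ) (j : Fin q) : ∑ l, sel z j l * f l = f (z.succAbove j) := by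
  rw [Finset.sum_eq_single (z.succAbove j)]
  · show (if z.succAbove j = z.succAbove j then (1 : ℝ) else 0) * _ = _
    rw [if_pos rfl, one_mul]
  · intro b _ hb
    show (if z.succAbove j = b then (1 : ℝ) else 0) * _ = _
    rw [if_neg fun e => hb e.symm, zero_mul]
  · intro h
    exact absurd (Finset.mem_univ _) h

/-- the projection which forgets the coordinate `z` -/
def prZ (s : Sys S (q + 1)) (z : Fin (q + 1)) : Sys S q := prB (sel z) s

theorem fac_prZ (s : Sys S (q + 1)) (z : Fin (q + 1)) : Fac s (prZ s z) := Fac.pr s _ _ _ _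

theorem prZ_a (s : Sys S (q + 1)) (z : Fin (q + 1)) (k : ℕ) (ω : (S.F k).Ω) (j : Fin q) :
    (prZ s z).a.v k ω j = s.a.v k ω (z.succAbove j) := sel_sum z (s.a.v k ω) j

theorem prZ_x (s : Sys S (q + 1)) (z : Fin (q + 1)) (k : ℕ) (ω : (S.F k).Ω) (j : Fin q) :
    (prZ s z).x.v k ω j = s.x.v k ω (z.succAbove j) := sel_sum z (s.x.v k ω) j

theorem ptf_prZ (s : Sys S (q + 1)) (z : Fin (q + 1)) (k : ℕ) (ω : (S.F k).Ω) : ptf (prZ s z) k ω =
    pl (fun l => s.a.v k ω (z.succAbove l)) (fun l => s.x.v k ω (z.succAbove l)) (s.t.v k ω 0) := by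
  unfold ptf
  have h1 : (prZ s z).a.v k ω = fun l => s.a.v k ω (z.succAbove l) := funext (prZ_a s z k ω)
  have h2 : (prZ s z).x.v k ω = fun l => s.x.v k ω (z.succAbove l) := funext (prZ_x s z k ω)
  rw [h1, h2]
  rfl

/-- the finite step: one of the horizontal diagonal entries is large -/
theorem fin_large {A : Matrix (Mon (q + 1) 1) (Mon (q + 1) 1) ℝ} (hA : PdM A) (hq : 0 < q) (r : ℝ)
    (p : Fin (q + 1) → ℝ) (x : Fin q → ℝ) {K V W T : ℝ} (hx : ∀ j, |x j| ≤ K)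
    (hv : qf A (gv (Fin.cons 1 x : Fin (q + 1) → ℝ)) ≤ V) (hg : W ≤ gam r A p)
    (hW : nn (q + 1) 1 * (2 * V + (2 * q * K ^ 2 + 1) * (q * T)) ≤ W) :
    ∃ j : Fin q, (∀ l : Fin q, qf A (gM (Pi.single l 1)) ≤ qf A (gM (Pi.single j 1))) ∧
      T ≤ qf A (gM (Pi.single j 1)) := by
  have : Nonempty (Fin q) := ⟨⟨0, hq⟩⟩
  obtain ⟨j, hj⟩ := Finite.exists_max fun l : Fin q => qf A (gM (Pi.single l 1))
  refine ⟨j, hj, ?_⟩
  by_contra hc
  push Not at hc
  have h1 := time_le hA x hx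
  have h2 : ∑ l : Fin q, qf A (gM (Pi.single l 1)) ≤ q * qf A (gM (Pi.single j 1)) := by
    refine (Finset.sum_le_card_nsmul _ _ _ fun l _ => hj l).trans (le_of_eq ?_)
    rw [nsmul_eq_mul, Finset.card_univ, Fintype.card_fin]
  have h3 : ∑ l : Fin q, qf A (gM (Pi.single l 1)) < q * T := by
    have hq' : (0 : ℝ) < q := by exact_mod_cast hq
    exact lt_of_le_of_lt h2 (mul_lt_mul_of_pos_left hc hq')
  have h4 : gam r A p = nn (q + 1) 1 * (qf A (gv (Pi.single 0 1)) + ∑ l : Fin q, qf A (gM (Pi.single l 1))) := by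
    rw [gam_one, Fin.sum_univ_succ]
    congr 2
    exact Finset.sum_congr rfl fun l _ => by rw [gM_single]
  rw [h4] at hg
  have h5 := nn_one (q + 1) 1
  have h6 : nn (q + 1) 1 * (qf A (gv (Pi.single 0 1)) + ∑ l : Fin q, qf A (gM (Pi.single l 1))) <
      nn (q + 1) 1 * (2 * V + (2 * q * K ^ 2 + 1) * (q * T)) := by
    apply mul_lt_mul_of_pos_left _ (by linarith)
    have h7 : 0 ≤ 2 * (q : ℝ) * K ^ 2 := by positivity
    have h8 : 2 * (q : ℝ) * K ^ 2 * ∑ l : Fin q, qf A (gM (Pi.single l 1)) ≤ 2 * (q : ℝ) * K ^ 2 * (q * T) :=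
      mul_le_mul_of_nonneg_left h3.le h7
    nlinarith
  linarith

/-- the finite step: the sheet -/
theorem fin_sheet {A : Matrix (Mon (q + 1) 1) (Mon (q + 1) 1) ℝ} (hA : PdM A) (r : ℝ) (p : Fin (q + 1) → ℝ)
    (x : Fin q → ℝ) {K V T L : ℝ} (hK : 0 ≤ K) (hx : ∀ j, |x j| ≤ K)
    (hv : qf A (gv (Fin.cons 1 x : Fin (q + 1) → ℝ)) ≤ V) (hV : V ≤ T) {j : Fin q}
    (hj : ∀ l : Fin q, qf A (gM (Pi.single l 1)) ≤ qf A (gM (Pi.single j 1))) (hT : T ≤ qf A (gM (Pi.single j 1)))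
    (hT0 : 0 < T) (hL : 0 ≤ L) (hφ : phi r A p ≤ L ^ 2 * T) :
    rw1 A j ⬝ᵥ gM (Pi.single j 1) = 1 ∧ |rw1 A j ⬝ᵥ gv (Pi.single 0 1)| ≤ 1 + q * K ∧
      (∀ l : Fin q, |rw1 A j ⬝ᵥ gM (Pi.single l 1)| ≤ 1) ∧ |rw1 A j ⬝ᵥ vv p| ≤ L := by
  have h0 : 0 < qf A (gM (Pi.single j 1)) := hT0.trans_le hT
  have h1 : ∀ l : Fin q, |rw1 A j ⬝ᵥ gM (Pi.single l 1)| ≤ 1 := fun l => by
    apply rw1_le hA h0 zero_le_one
    rw [one_pow, one_mul]
    exact hj l
  refine ⟨rw1_self h0, ?_, h1, ?_⟩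
  · have h2 : |rw1 A j ⬝ᵥ gv (Fin.cons 1 x : Fin (q + 1) → ℝ)| ≤ 1 := by
      apply rw1_le hA h0 zero_le_one
      rw [one_pow, one_mul]
      exact hv.trans (hV.trans hT)
    have h3 : rw1 A j ⬝ᵥ gv (Pi.single 0 1) = rw1 A j ⬝ᵥ gv (Fin.cons 1 x : Fin (q + 1) → ℝ) - rw1 A j ⬝ᵥ gM x := by
      rw [gv_cons, dotProduct_add, add_sub_cancel_right]
    have h4 : |rw1 A j ⬝ᵥ gM x| ≤ q * K := by
      rw [gM_sum, dotProduct_sum]
      refine (Finset.abs_sum_le_sum_abs _ _).trans ?_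
      refine (Finset.sum_le_card_nsmul _ _ K fun l _ => ?_).trans (le_of_eq ?_)
      · rw [dotProduct_smul, smul_eq_mul, abs_mul]
        calc |x l| * |rw1 A j ⬝ᵥ gM (Pi.single l 1)| ≤ K * 1 := mul_le_mul (hx l) (h1 l) (abs_nonneg _) hK
          _ = K := mul_one K
      · rw [nsmul_eq_mul, Finset.card_univ, Fintype.card_fin]
    rw [h3]
    have := abs_sub (rw1 A j ⬝ᵥ gv (Fin.cons 1 x : Fin (q + 1) → ℝ)) (rw1 A j ⬝ᵥ gM x)
    linarith
  · apply rw1_le hA h0 hL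
    have h2 := Pool.Agent.Helper93.LIP.qf_vv_le (fun v => hA.nonneg v) r p
    exact (h2.trans hφ).trans (mul_le_mul_of_nonneg_left hT (sq_nonneg L))

end

end Pool.Agent.Helper46.LI
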