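import Pool.Agent.Helper46.LI.La2
import Pool.Agent.Helper25.EC.Rst

/-! From affine forms on the projection to sheets, on an event of positive probability. -/

set_option autoImplicit false

namespace Pool.Agent.Helper46.LI

open Finset Filter Topology Matrix Pool.Agent.Helper69.RK Pool.Agent.Helper31.EC Pool.Agent.Helper31.EC.Sp
open Pool.Agent.Helper40.EL Pool.Agent.Helper42.NS Pool.Agent.Helper52.KP
open Pool.Agent.Helper95.LF Pool.Agent.Helper89.LX Pool.Agent.Helper3.LF Pool.Agent.Helper3.SG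
open Pool.Agent.Helper39.LIP Pool.Agent.Helper91.GR

noncomputable section

variable {S : Sp} {q : ℕ}

open Classical in
/-- coefficients, cut at the bound `K` for the slopes -/
def clp {N : ℕ} (K : ℝ) (f : Cf N) : Cf N := if ∀ i, |f.2 i| ≤ K then f else (0, 0)

theorem clp_le {N : ℕ} {K : ℝ} (hK : 0 ≤ K) (f : Cf N) (i : Fin N) : |(clp K f).2 i| ≤ K := by
  unfold clp
  split_ifs with h
  · exact h i
  · show |(0 : Fin N → ℝ) i| ≤ K
    rw [Pi.zero_apply, abs_zero]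
    exact hK

theorem clp_eq {N : ℕ} {K : ℝ} {f : Cf N} (h : ∀ i, |f.2 i| ≤ K) : clp K f = f := if_pos h

theorem ar1 {N V T a b : ℝ} (hN : 0 ≤ N) (h : V ≤ T) : N * (2 * V + a * (b * T)) ≤ N * (2 + a * b) * T := by
  rw [mul_assoc]
  apply mul_le_mul_of_nonneg_left _ hN
  nlinarith

/-- AFFINE FORMS GIVE SHEETS on an event of positive probability -/
theorem sheet_im {s : Sys S (q + 1)} {z : Fin (q + 1)} (hq : 0 < q) {c σ : ℝ} (h0 : 0 ≤ c) (h1 : c < 1)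
    (hf : HfP s (prZ s z) 1 c σ) (hσ1 : σ ≤ 1) {e : ℝ} (he : 0 < e) (hce : c + 4 * e ≤ σ) :
    ∃ (j : Fin q) (l : Lab S) (E : ∀ k, (l.sp.F k).Ω → Prop) (hE : 0 < ul (l.sp.pr E)),
      HH (SJ (z.succAbove j) (Jz z j)) (s.im l.pj E hE) c (σ - 4 * e) := by
  obtain ⟨x, hx, hσ⟩ := hf
  obtain ⟨l, hl⟩ : ∃ l : Lab S, l = fun k => (x k).l := ⟨_, rfl⟩
  subst hl
  obtain ⟨A, hA⟩ : ∃ A : ∀ k, ((x k).l).T.Ω → Matrix (Mon (q + 1) 1) (Mon (q + 1) 1) ℝ, A = fun k ω => (x k).g ω :=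
    ⟨_, rfl⟩
  have hdm : DMc s c (fun k => (x k).l) := Gau.Ad.dm (gau (prZ s z) 1) hx
  have hpd : ∀ᶠ k in UF, ∀ ω, ((x k).l).T.μ ω ≠ 0 → PdM (A k ω) := by
    filter_upwards [hx 1 one_pos] with k a ω hω
    rw [hA]
    exact (a.2.2.1 ω hω).1.pdM
  have hV : ∀ᶠ k in UF, ∀ ω ω', ((x k).l).T.μ ω ≠ 0 → ((x k).l).T.μ ω' ≠ 0 → ((x k).l).V ω ω' →
      ((x k).l).T.Z ω ω' → A k ω = A k ω' := by
    refine Eventually.of_forall fun k ω ω' a b c' d => ?_
    rw [hA]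
    exact ((x k).meas ω ω' a b c' d).1
  have hφ : ∀ e : ℝ, 0 < e → ∀ᶠ k in UF, ((x k).l).T.pb (fun ω =>
      ¬ sph (prZ s z) 1 k (((x k).l).p.π ω) (A k ω) ≤ 2 ^ (e * (S.F k).n)) ≤ e := by
    intro e' he'
    filter_upwards [hx e' he'] with k a
    rw [hA]
    exact a.2.2.2.1
  have t1 := Pool.Agent.Helper93.LIP.tendsto_of_le (F := fun k => ((x k).l).T) (E := fun e k ω =>
    sph (prZ s z) 1 k (((x k).l).p.π ω) (A k ω) ≤ 2 ^ (e * (S.F k).n)) (by
      intro a b _ hab k ω h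
      exact h.trans (Real.rpow_le_rpow_of_exponent_le (by norm_num)
        (mul_le_mul_of_nonneg_right hab (S.F k).pos.le))) hφ e he
  have t2 := hσ e he
  have t3 := Pool.Agent.Helper93.LIP.line_vel (fac_prZ s z) h0 h1 (l := fun k => (x k).l) hdm.1 A hpd hV hφ e he
  obtain ⟨T1, T2, T3⟩ : Typ (S := Lab.sp (S := S) fun k => (x k).l) (fun k (ω : ((x k).l).T.Ω) =>
      sph (prZ s z) 1 k (((x k).l).p.π ω) (A k ω) ≤ 2 ^ (e * (S.F k).n)) ∧
      Typ (S := Lab.sp (S := S) fun k => (x k).l) (fun k (ω : ((x k).l).T.Ω) => 2 ^ (2 * (σ - e) * (S.F k).n) ≤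
        sga (prZ s z) 1 k (((x k).l).p.π ω) (A k ω)) ∧
      Typ (S := Lab.sp (S := S) fun k => (x k).l) (fun k (ω : ((x k).l).T.Ω) =>
        qf (A k ω) (gv (Fin.cons 1 ((prZ s z).x.v k (((x k).l).p.π ω)) : Fin (q + 1) → ℝ)) ≤
        2 ^ (2 * (c + e) * (S.F k).n)) := by
    refine ⟨t1, ?_, t3⟩
    rw [hA]
    exact t2
  obtain ⟨K, hK, hKx⟩ := s.x.bd
  have hxz : ∀ᶠ k in UF, ∀ ω : ((x k).l).T.Ω, ((x k).l).T.μ ω ≠ 0 →
      ∀ j, |(prZ s z).x.v k (((x k).l).p.π ω) j| ≤ K k := by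
    filter_upwards [hKx] with k hk ω hω j
    rw [prZ_x]
    exact hk _ (((x k).l).p.supp ω hω) _
  have hT : ∀ k, (0 : ℝ) < 2 ^ (2 * (σ - 3 * e) * (S.F k).n) := fun k => by positivity
  have hVT : ∀ k, (2 : ℝ) ^ (2 * (c + e) * (S.F k).n) ≤ 2 ^ (2 * (σ - 3 * e) * (S.F k).n) := fun k => by
    apply Real.rpow_le_rpow_of_exponent_le (by norm_num)
    apply mul_le_mul_of_nonneg_right _ (S.F k).pos.le
    linarith
  have hSub : S.Sub (fun k => nn (q + 1) 1 * (2 + (2 * q * K k ^ 2 + 1) * q)) := by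
    have one : S.Sub (fun _ => (1 : ℝ)) := S.Sub_const zero_le_one
    have h2 := ((S.Sub_const (show (0 : ℝ) ≤ 2 * q by positivity)).mul (Sub_pow' hK 2)).add one
    have h3 := (S.Sub_const zero_le_two).add (h2.mul (S.Sub_const (show (0 : ℝ) ≤ q by positivity)))
    have h4 := nn_one (q + 1) 1
    exact (S.Sub_const (show (0 : ℝ) ≤ nn (q + 1) 1 by linarith)).mul h3
  -- one of the horizontal entries is large
  obtain ⟨E, hEd⟩ : ∃ E : Fin q → ∀ k, ((Lab.sp (S := S) fun k => (x k).l).F k).Ω → Prop, E = fun j k ω =>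
      (∀ l : Fin q, qf (A k ω) (gM (Pi.single l 1)) ≤ qf (A k ω) (gM (Pi.single j 1))) ∧
      (2 : ℝ) ^ (2 * (σ - 3 * e) * (S.F k).n) ≤ qf (A k ω) (gM (Pi.single j 1)) := ⟨_, rfl⟩
  have hTE : Typ (S := Lab.sp (S := S) fun k => (x k).l) (fun k ω => ∃ j, E j k ω) := by
    refine (T2.and T3).mono (S := Lab.sp (S := S) fun k => (x k).l) ?_
    filter_upwards [hpd, hxz, hSub.eventually_le (show 0 < 4 * e by linarith)] with k a b d ω hω g
    rw [hEd]
    refine fin_large (a ω hω) hq (S.dl 1 k) (ptf (prZ s z) k (((x k).l).p.π ω)) _ (b ω hω) g.2 g.1 ?_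
    have h2 : (2 : ℝ) ^ (2 * (σ - e) * (S.F k).n) = 2 ^ (4 * e * (S.F k).n) * 2 ^ (2 * (σ - 3 * e) * (S.F k).n) := by
      rw [← Real.rpow_add (by norm_num)]
      congr 1
      ring
    rw [h2]
    have h3 : nn (q + 1) 1 * (2 * 2 ^ (2 * (c + e) * (S.F k).n) + (2 * q * K k ^ 2 + 1) *
        (q * 2 ^ (2 * (σ - 3 * e) * (S.F k).n))) ≤ nn (q + 1) 1 * (2 + (2 * q * K k ^ 2 + 1) * q) *
        2 ^ (2 * (σ - 3 * e) * (S.F k).n) := by
      have h4 := nn_one (q + 1) 1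
      exact ar1 (by linarith) (hVT k)
    refine h3.trans ?_
    exact mul_le_mul_of_nonneg_right (by linarith) (hT k).le
  obtain ⟨j, hj⟩ := typ_exists_fin E hTE
  have hdm' : DMc (s.im (Lab.pj (S := S) fun k => (x k).l) (E j) hj) c (Lab.im (S := S) (fun k => (x k).l) (E j)) :=
    Lab.DM.im hdm (E j) hj
  have hK2 : S.Sub (fun k => 1 + (1 + q * K k)) := by
    have one : S.Sub (fun _ => (1 : ℝ)) := S.Sub_const zero_le_one
    exact one.add (one.add ((S.Sub_const (show (0 : ℝ) ≤ q by positivity)).mul hK))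
  refine ⟨j, fun k => (x k).l, E j, hj, HH_of_Sht (l := Lab.im (S := S) (fun k => (x k).l) (E j))
    (v := fun k ω => clp (1 + (1 + q * K k)) (shw z (rw1 (A k ω) j))) (by linarith) (by linarith) hdm'
    ⟨fun k ω ω' a b c' d => ?_, _, hK2, ?_, ?_⟩⟩
  · have h2 : A k ω = A k ω' := by
      rw [hA]
      exact ((x k).meas ω ω' (((x k).l).T.rest_supp (E j k) ω a).1 (((x k).l).T.rest_supp (E j k) ω' b).1 c' d).1
    show clp _ (shw z (rw1 (A k ω) j)) = clp _ (shw z (rw1 (A k ω') j))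
    rw [h2]
  · filter_upwards [hK2.1] with k hk ω _ i
    exact clp_le hk _ i
  · have hr : Typ (S := (Lab.sp (S := S) fun k => (x k).l).rest (E j)) (fun k (ω : ((x k).l).T.Ω) =>
        sph (prZ s z) 1 k (((x k).l).p.π ω) (A k ω) ≤ 2 ^ (e * (S.F k).n) ∧
        qf (A k ω) (gv (Fin.cons 1 ((prZ s z).x.v k (((x k).l).p.π ω)) : Fin (q + 1) → ℝ)) ≤
        2 ^ (2 * (c + e) * (S.F k).n)) :=
      Pool.Agent.Helper25.EC.typ_rest (E j) hj (T1.and T3)
    refine hr.mono (S := (Lab.sp (S := S) fun k => (x k).l).rest (E j)) ?_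
    have hpr : Tendsto ((Lab.sp (S := S) fun k => (x k).l).pr (E j)) UF
      (𝓝 (ul ((Lab.sp (S := S) fun k => (x k).l).pr (E j)))) := ul_tendsto (UB_pr (E j))
    filter_upwards [hpr.eventually (lt_mem_nhds hj), hpd, hxz, hK.1, hK2.1] with k hk a b kk k2 ω hω g
    obtain ⟨hω1, hω2⟩ := ((x k).l).T.rest_supp (E j k) ω hω
    have hEk : E j k ω := hω2 hk.ne'
    rw [hEd] at hEk
    obtain ⟨e1, e2⟩ := hEk
    have hL : (0 : ℝ) < 2 ^ (-((σ - 4 * e) * (S.F k).n)) := by positivity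
    have hφL : phi (S.dl 1 k) (A k ω) (ptf (prZ s z) k (((x k).l).p.π ω)) ≤
        (2 ^ (-((σ - 4 * e) * (S.F k).n))) ^ 2 * 2 ^ (2 * (σ - 3 * e) * (S.F k).n) := by
      have e3 : ((2 : ℝ) ^ (-((σ - 4 * e) * (S.F k).n))) ^ 2 * 2 ^ (2 * (σ - 3 * e) * (S.F k).n) =
          2 ^ (2 * e * (S.F k).n) := by
        rw [← Real.rpow_natCast, ← Real.rpow_mul (by norm_num), ← Real.rpow_add (by norm_num)]
        congr 1
        push_cast
        ring
      rw [e3]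
      refine g.1.trans ?_
      apply Real.rpow_le_rpow_of_exponent_le (by norm_num)
      apply mul_le_mul_of_nonneg_right _ (S.F k).pos.le
      linarith
    obtain ⟨f1, f2, f3, f4⟩ := fin_sheet (a ω hω1) (S.dl 1 k) (ptf (prZ s z) k (((x k).l).p.π ω)) _ kk (b ω hω1)
      g.2 (hVT k) e1 e2 (hT k) hL.le hφL
    have f5 : ∀ i, |(shw z (rw1 (A k ω) j)).2 i| ≤ 1 + (1 + q * K k) := fun i =>
      shw_le k2 (f2.trans (by linarith)) (fun l => (f3 l).trans (by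
        have : 0 ≤ (q : ℝ) * K k := mul_nonneg (Nat.cast_nonneg q) kk
        linarith)) i
    show |df (z.succAbove j) (Jz z j) (clp (1 + (1 + q * K k)) (shw z (rw1 (A k ω) j)))
      (s.a.v k (((x k).l).p.π ω)) (s.x.v k (((x k).l).p.π ω)) (s.t.v k (((x k).l).p.π ω) 0)| ≤
      (1 + (1 + q * K k)) * S.dl (σ - 4 * e) k
    rw [clp_eq f5, df_shw z _ j f1, ← ptf_prZ]
    refine f4.trans ?_
    have e4 : (2 : ℝ) ^ (-((σ - 4 * e) * (S.F k).n)) = S.dl (σ - 4 * e) k := rfl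
    rw [e4]
    have h5 := S.dl_pos (σ - 4 * e) k
    have : 0 ≤ (q : ℝ) * K k := mul_nonneg (Nat.cast_nonneg q) kk
    nlinarith

end

end Pool.Agent.Helper46.LI
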