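import Pool.Agent.Helper46.LI.La3
import Pool.Agent.Helper88.NSK.Hfp

/-! Polynomials on a factor which are functions of a label of the window of the big system; sheets over the other
coordinates of the projection give affine forms on the projection. -/

set_option autoImplicit false

namespace Pool.Agent.Helper46.LI

open Finset Filter Topology Matrix Pool.Agent.Helper69.RK Pool.Agent.Helper31.EC Pool.Agent.Helper31.EC.Sp
open Pool.Agent.Helper40.EL Pool.Agent.Helper42.NS Pool.Agent.Helper52.KP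
open Pool.Agent.Helper89.LX Pool.Agent.Helper3.LF Pool.Agent.Helper3.SG
open Pool.Agent.Helper39.LIP Pool.Agent.Helper91.GR Pool.Agent.Helper88.NSK

noncomputable section

variable {S : Sp} {m q D : ℕ}

/-- A LABEL-MEASURABLE POLYNOMIAL ON THE FACTOR WHICH IS SMALL AT THE POINT AND HAS A LARGE GRADIENT -/
theorem HfP_of_poly {s : Sys S m} {s' : Sys S q} (l : Lab S) {c σ : ℝ} (hl : l.DM (cA s c) (cB s))
    (v : ∀ k, (l k).T.Ω → Mon (q + 1) D → ℝ)
    (hv : ∀ k ω ω', (l k).T.μ ω ≠ 0 → (l k).T.μ ω' ≠ 0 → (l k).V ω ω' → (l k).T.Z ω ω' → v k ω = v k ω')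
    (K : ℕ → ℝ) (hK : S.Sub K) (hT : Sp.Typ (S := l.sp) (fun k (ω : (l k).T.Ω) =>
      2 ^ (2 * σ * (S.F k).n) * ph D (pol (v k ω)) (S.dl 1 k) (ptf s' k ((l k).p.π ω)) ≤ K k ∧
      1 ≤ K k * ga D (pol (v k ω)) (S.dl 1 k) (ptf s' k ((l k).p.π ω)))) : HfP s s' D c σ := by
  obtain ⟨K0, hK0, hone⟩ := (gau s' D).one
  have hKK : S.Sub (fun k => K0 k + K k) := hK0.add hK
  have hw : ∀ k, (0 : ℝ) ≤ 2 ^ (2 * σ * (S.F k).n) := fun k => by positivity
  have hphi : ∀ k (ω : (l k).T.Ω),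
      2 ^ (2 * σ * (S.F k).n) * ph D (pol (v k ω)) (S.dl 1 k) (ptf s' k ((l k).p.π ω)) ≤ K k →
      (gau s' D).φ k ((l k).p.π ω) 1 ≤ K0 k →
      sph s' D k ((l k).p.π ω) (nfm (2 ^ (2 * σ * (S.F k).n)) (v k ω)) ≤ K0 k + K k := by
    intro k ω g1 g2
    unfold sph
    rw [nfm_phi]
    exact add_le_add g2 g1
  have hcap : ∀ᶠ k in UF, ∀ ω, (l k).T.μ ω ≠ 0 →
      sph s' D k ((l k).p.π ω) (nfm (2 ^ (2 * σ * (S.F k).n)) (v k ω)) ≤ K0 k + K k →
      Cpd ((gau s' D).cp k) (nfm (2 ^ (2 * σ * (S.F k).n)) (v k ω)) := by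
    filter_upwards [(gau s' D).cap, hKK.eventually_le one_pos] with k b1 b2 ω hω g1
    have g2 : Pool.Agent.Helper95.LF.PdM (nfm (2 ^ (2 * σ * (S.F k).n)) (v k ω)) :=
      pdM_of_one_le (nfm_symm _ _) (nfm_one_le (hw k) _)
    refine ⟨nfm_symm _ _, nfm_one_le (hw k) _, fun y => ?_⟩
    refine (b1 _ ((l k).p.supp ω hω) _ g2 y).trans ?_
    apply mul_le_mul_of_nonneg_right _ (dot_self_nonneg y)
    unfold Gau.cp
    rw [add_mul, Real.rpow_add (by norm_num)]
    apply mul_le_mul_of_nonneg_left _ (by positivity)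
    have g3 : (gau s' D).φ k ((l k).p.π ω) (nfm (2 ^ (2 * σ * (S.F k).n)) (v k ω)) ≤ K0 k + K k := g1
    linarith
  refine ⟨pfd s' σ l v hv, ?_, ?_⟩
  · apply ad_mk (Φ := gau s' D) (pfd s' σ l v hv) hl (fun k => rfl)
      (Eventually.of_forall fun k ω _ => capd_Cpd ((gau s' D).one_le_cp k) _) (fun k => K0 k + K k) hKK
    refine typ_mono (S := l.sp) hT ?_
    filter_upwards [hone, hK.1] with k b1 b2 ω hω g1
    have g2 := b1 _ ((l k).p.supp ω hω)
    show (gau s' D).φ k ((l k).p.π ω) (capd ((gau s' D).cp k) (nfm (2 ^ (2 * σ * (S.F k).n)) (v k ω))) ≤ K0 k + K k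
    unfold capd
    split_ifs with h3
    · exact hphi k ω g1.1 g2
    · linarith
  · have hfin : Sp.Typ (S := l.sp) (fun k (ω : (l k).T.Ω) => 2 ^ (2 * σ * (l.sp.F k).n) ≤
        K k * sga s' D k ((l k).p.π ω) (capd ((gau s' D).cp k) (nfm (2 ^ (2 * σ * (S.F k).n)) (v k ω)))) := by
      refine typ_mono (S := l.sp) hT ?_
      filter_upwards [hone, hcap, hK.1] with k b1 b3 b4 ω hω g1
      have g2 := b1 _ ((l k).p.supp ω hω)
      have g3 := b3 ω hω (hphi k ω g1.1 g2)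
      rw [capd_eq g3, sp_n]
      have g6 := nfm_gam (r := S.dl 1 k) (w := 2 ^ (2 * σ * (S.F k).n)) (v k ω) (ptf s' k ((l k).p.π ω))
      have g7 : (2 : ℝ) ^ (2 * σ * (S.F k).n) * 1 ≤ 2 ^ (2 * σ * (S.F k).n) * (K k *
          ga D (pol (v k ω)) (S.dl 1 k) (ptf s' k ((l k).p.π ω))) := mul_le_mul_of_nonneg_left g1.2 (hw k)
      rw [mul_one] at g7
      refine g7.trans ?_
      have g8 := mul_le_mul_of_nonneg_left g6 b4
      refine le_trans (le_of_eq ?_) g8
      ring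
    intro e he
    have hfin2 := typ_of_sub_ge ((sp_Sub l).mpr hK) (2 * σ)
      (Eventually.of_forall fun k ω _ => gam_nonneg _ (fun y => (capd_Cpd ((gau s' D).one_le_cp k)
        (nfm (2 ^ (2 * σ * (S.F k).n)) (v k ω))).psd.2 y) _) hfin (2 * e) (by linarith)
    have hfin3 : Tendsto (fun k => (l k).T.pb (fun ω => ¬ 2 ^ ((2 * σ - 2 * e) * (l.sp.F k).n) ≤
      sga s' D k ((l k).p.π ω) (capd ((gau s' D).cp k) (nfm (2 ^ (2 * σ * (S.F k).n)) (v k ω))))) UF (𝓝 0) := hfin2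
    refine hfin3.congr fun k => ?_
    show (l k).T.pb _ = (l k).T.pb _
    congr 1
    funext ω
    rw [sp_n]
    show (¬ _ ≤ sga s' D k ((l k).p.π ω) (capd ((gau s' D).cp k) (nfm (2 ^ (2 * σ * (S.F k).n)) (v k ω)))) =
      (¬ _ ≤ sga s' D k ((l k).p.π ω) (capd ((gau s' D).cp k) (nfm (2 ^ (2 * σ * (S.F k).n)) (v k ω))))
    congr 2
    ring_nf

/-! ### the polynomial of a sheet -/

open MvPolynomial in
/-- the sheet as a polynomial on the projection -/
def shp (z : Fin (q + 1)) (j : Fin q) (f : Cf (q + 2)) : MvPolynomial (Fin (q + 1)) ℝ :=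
  X j.succ - (C f.1 + (C (f.2 0) * X 0 + ∑ l ∈ Finset.univ.erase j, C (f.2 (z.succAbove l).succ) * X l.succ))

open MvPolynomial in
theorem shp_deg (z : Fin (q + 1)) (j : Fin q) (f : Cf (q + 2)) : (shp z j f).totalDegree ≤ 1 := by
  have hC : ∀ x : ℝ, (C x : MvPolynomial (Fin (q + 1)) ℝ).totalDegree ≤ 1 := fun x => by
    rw [totalDegree_C]; exact Nat.zero_le _
  have hX : ∀ i : Fin (q + 1), (X i : MvPolynomial (Fin (q + 1)) ℝ).totalDegree ≤ 1 := fun i => (totalDegree_X i).le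
  have hCX : ∀ (x : ℝ) (i : Fin (q + 1)), (C x * X i : MvPolynomial (Fin (q + 1)) ℝ).totalDegree ≤ 1 := fun x i => by
    refine (totalDegree_mul _ _).trans ?_
    rw [totalDegree_C, zero_add]
    exact hX i
  unfold shp
  refine (totalDegree_sub _ _).trans (max_le (hX _) ?_)
  refine (totalDegree_add _ _).trans (max_le (hC _) ?_)
  refine (totalDegree_add _ _).trans (max_le (hCX _ _) ?_)
  exact totalDegree_finsetSum_le fun l _ => hCX _ _

open MvPolynomial in
theorem shp_eval (z : Fin (q + 1)) (j : Fin q) (f : Cf (q + 2)) (p : Fin (q + 1) → ℝ) : eval p (shp z j f) =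
    p j.succ - (f.1 + (f.2 0 * p 0 + ∑ l ∈ Finset.univ.erase j, f.2 (z.succAbove l).succ * p l.succ)) := by
  unfold shp
  simp only [map_sub, map_add, map_mul, eval_X, eval_C, map_sum]

open MvPolynomial in
theorem shp_der (z : Fin (q + 1)) (j : Fin q) (f : Cf (q + 2)) : pderiv j.succ (shp z j f) = 1 := by
  unfold shp
  rw [map_sub, map_add, map_add, pderiv_X_self, pderiv_C, pderiv_C_mul, pderiv_X_of_ne (Fin.succ_ne_zero j).symm,
    map_sum, Finset.sum_eq_zero, mul_zero, add_zero, add_zero, sub_zero]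
  intro l hl
  have h1 : l.succ ≠ j.succ := fun e => (Finset.ne_of_mem_erase hl) (Fin.succ_injective _ e)
  rw [pderiv_C_mul, pderiv_X_of_ne h1, mul_zero]

/-- the distance from the sheet is the value of the polynomial at the point of the projection -/
theorem shp_df (z : Fin (q + 1)) (j : Fin q) (f : Cf (q + 2)) (a x : Fin (q + 1) → ℝ) (t : ℝ) :
    MvPolynomial.eval (pl (fun l => a (z.succAbove l)) (fun l => x (z.succAbove l)) t) (shp z j f) =
      df (z.succAbove j) (Jz z j) f a x t := by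
  rw [shp_eval]
  unfold df aff
  rw [sum_Jz, pl_zero, pl_succ, pl_zero]
  congr 1

theorem shp_ph {z : Fin (q + 1)} {j : Fin q} {f : Cf (q + 2)} {K δ r : ℝ} (hK : 0 ≤ K) (hf : ∀ i, |f.2 i| ≤ K)
    (hr0 : 0 ≤ r) (hr : r ≤ δ) {p : Fin (q + 1) → ℝ} (hp : |MvPolynomial.eval p (shp z j f)| ≤ K * δ) :
    ph 1 (shp z j f) r p ≤ nn (q + 1) 1 * ((2 * K + (1 + q * K)) * δ) ^ 2 := by
  unfold ph
  refine (Finset.sum_le_card_nsmul _ _ (((2 * K + (1 + q * K)) * δ) ^ 2) fun n _ => ?_).trans (le_of_eq ?_)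
  · have hδ : 0 ≤ δ := hr0.trans hr
    rw [← sq_abs]
    apply pow_le_pow_left₀ (abs_nonneg _)
    have h1 : ∀ i, |r * nod 1 (n i)| ≤ δ := fun i => by
      rw [abs_mul, abs_of_nonneg hr0, abs_of_nonneg (nod_nonneg 1 _)]
      calc r * nod 1 (n i) ≤ δ * 1 := mul_le_mul hr (nod_le 1 _ (Nat.le_of_lt_succ (n i).2)) (nod_nonneg 1 _) hδ
        _ = δ := mul_one δ
    have h2 : MvPolynomial.eval (nodp 1 p r n) (shp z j f) = MvPolynomial.eval p (shp z j f) +
        (r * nod 1 (n j.succ) - (f.2 0 * (r * nod 1 (n 0)) +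
          ∑ l ∈ Finset.univ.erase j, f.2 (z.succAbove l).succ * (r * nod 1 (n l.succ)))) := by
      rw [shp_eval, shp_eval]
      have e1 : ∀ i, nodp 1 p r n i = p i + r * nod 1 (n i) := fun i => rfl
      rw [e1, e1]
      have e2 : ∑ l ∈ Finset.univ.erase j, f.2 (z.succAbove l).succ * nodp 1 p r n l.succ =
          ∑ l ∈ Finset.univ.erase j, f.2 (z.succAbove l).succ * p l.succ +
          ∑ l ∈ Finset.univ.erase j, f.2 (z.succAbove l).succ * (r * nod 1 (n l.succ)) := by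
        rw [← Finset.sum_add_distrib]
        exact Finset.sum_congr rfl fun l _ => by rw [e1, mul_add]
      rw [e2]
      ring
    have h3 : ∀ (b : ℝ) (i : Fin (q + 1)), |b| ≤ K → |b * (r * nod 1 (n i))| ≤ K * δ := fun b i hb => by
      rw [abs_mul]
      exact mul_le_mul hb (h1 i) (abs_nonneg _) hK
    have h4 : |∑ l ∈ Finset.univ.erase j, f.2 (z.succAbove l).succ * (r * nod 1 (n l.succ))| ≤ q * (K * δ) := by
      refine (Finset.abs_sum_le_sum_abs _ _).trans ?_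
      refine (Finset.sum_le_card_nsmul _ _ (K * δ) fun l _ => h3 _ _ (hf _)).trans ?_
      rw [nsmul_eq_mul]
      apply mul_le_mul_of_nonneg_right _ (mul_nonneg hK hδ)
      have h5 := Finset.card_le_univ (Finset.univ.erase j)
      rw [Fintype.card_fin] at h5
      exact_mod_cast h5
    rw [h2]
    have g1 := abs_add_le (MvPolynomial.eval p (shp z j f)) (r * nod 1 (n j.succ) - (f.2 0 * (r * nod 1 (n 0)) +
          ∑ l ∈ Finset.univ.erase j, f.2 (z.succAbove l).succ * (r * nod 1 (n l.succ))))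
    have g2 := abs_sub (r * nod 1 (n j.succ)) (f.2 0 * (r * nod 1 (n 0)) +
          ∑ l ∈ Finset.univ.erase j, f.2 (z.succAbove l).succ * (r * nod 1 (n l.succ)))
    have g3 := abs_add_le (f.2 0 * (r * nod 1 (n 0)))
      (∑ l ∈ Finset.univ.erase j, f.2 (z.succAbove l).succ * (r * nod 1 (n l.succ)))
    have g4 := h1 j.succ
    have g5 := h3 (f.2 0) 0 (hf 0)
    nlinarith
  · rw [nsmul_eq_mul, card_nodes]

/-- SHEETS OVER THE OTHER COORDINATES OF THE PROJECTION GIVE AFFINE FORMS ON THE PROJECTION -/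
theorem HfP_of_SJ {s : Sys S (q + 1)} {z : Fin (q + 1)} {j : Fin q} {c σ : ℝ} (hσ1 : σ ≤ 1)
    (h : HH (SJ (z.succAbove j) (Jz z j)) s c σ) : HfP s (prZ s z) 1 c σ := by
  obtain ⟨l, v, hdm, hm, K, hK, hs, ht⟩ := Sht_of_HH h
  have hcf : ∀ f : Cf (q + 2), ∃ w : Mon (q + 1) 1 → ℝ, shp z j f = pol w := fun f => exists_pol _ (shp_deg z j f)
  choose w hw using hcf
  have hKK : S.Sub (fun k => 1 + nn (q + 1) 1 * (2 * K k + (1 + q * K k)) ^ 2) := by
    have one : S.Sub (fun _ => (1 : ℝ)) := S.Sub_const zero_le_one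
    have h4 := nn_one (q + 1) 1
    have h5 := ((S.Sub_const zero_le_two).mul hK).add (one.add
      ((S.Sub_const (show (0 : ℝ) ≤ q by positivity)).mul hK))
    exact one.add ((S.Sub_const (show (0 : ℝ) ≤ nn (q + 1) 1 by linarith)).mul (Sub_pow' h5 2))
  refine HfP_of_poly l hdm (fun k ω => w (v k ω)) (fun k ω ω' a b c' d => ?_)
    (fun k => 1 + nn (q + 1) 1 * (2 * K k + (1 + q * K k)) ^ 2) hKK ?_
  · show w (v k ω) = w (v k ω')
    rw [hm k ω ω' a b c' d]
  · refine typ_mono (S := l.sp) ht ?_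
    filter_upwards [hs, hK.1] with k a b ω hω g
    have hnn := nn_one (q + 1) 1
    have hev : MvPolynomial.eval (ptf (prZ s z) k ((l k).p.π ω)) (shp z j (v k ω)) = dfl s (z.succAbove j) (Jz z j) l v k ω := by
      rw [ptf_prZ, shp_df]
      rfl
    refine ⟨?_, ?_⟩
    · rw [← hw]
      have h1 := shp_ph (z := z) (j := j) b (a ω hω) (S.dl_pos 1 k).le (S.dl_anti hσ1 k) (by
        rw [hev]; exact g)
      have h2 : (2 : ℝ) ^ (2 * σ * (S.F k).n) * S.dl σ k ^ 2 = 1 := by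
        unfold Sp.dl
        rw [← Real.rpow_natCast, ← Real.rpow_mul (by norm_num), ← Real.rpow_add (by norm_num)]
        have : 2 * σ * (S.F k).n + -(σ * (S.F k).n) * ((2 : ℕ) : ℝ) = 0 := by push_cast; ring
        rw [this, Real.rpow_zero]
      calc (2 : ℝ) ^ (2 * σ * (S.F k).n) * ph 1 (shp z j (v k ω)) (S.dl 1 k) (ptf (prZ s z) k ((l k).p.π ω)) ≤
          (2 : ℝ) ^ (2 * σ * (S.F k).n) * (nn (q + 1) 1 * ((2 * K k + (1 + q * K k)) * S.dl σ k) ^ 2) :=
            mul_le_mul_of_nonneg_left h1 (by positivity)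
        _ = nn (q + 1) 1 * (2 * K k + (1 + q * K k)) ^ 2 * ((2 : ℝ) ^ (2 * σ * (S.F k).n) * S.dl σ k ^ 2) := by ring
        _ ≤ _ := by rw [h2, mul_one]; linarith
    · rw [← hw]
      have h1 : 1 ≤ ga 1 (shp z j (v k ω)) (S.dl 1 k) (ptf (prZ s z) k ((l k).p.π ω)) := by
        unfold ga
        refine le_trans ?_ (Finset.single_le_sum (f := fun i => ph 1 (MvPolynomial.pderiv i (shp z j (v k ω)))
          (S.dl 1 k) (ptf (prZ s z) k ((l k).p.π ω))) (fun i _ => ph_nonneg _ _ _) (Finset.mem_univ j.succ))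
        show 1 ≤ ph 1 (MvPolynomial.pderiv j.succ (shp z j (v k ω))) (S.dl 1 k) (ptf (prZ s z) k ((l k).p.π ω))
        rw [shp_der]
        unfold ph
        simp only [map_one, one_pow, Finset.sum_const, nsmul_eq_mul, mul_one]
        rw [card_nodes]
        exact hnn
      have h3 : 0 ≤ nn (q + 1) 1 * (2 * K k + (1 + q * K k)) ^ 2 := by positivity
      nlinarith

end

end Pool.Agent.Helper46.LI
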